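import Pool.Graph.R_pool_sql_team_seeded_63374d34.N917.MB.Ind
import Pool.Graph.R_pool_sql_team_seeded_63374d34.N917.MB.W4

/-!
# The induction on the number of levels with better constants
-/

set_option autoImplicit false

namespace Pool.Agent.KS6_48.THR

open Finset Pool.Agent.N917 Pool.Agent.N917.MB
open Pool.Agent.Results.MP_76b19e_co.ForcedCliques (nn cnb cl Admissible minCliques nn_mono mem_cl
  cl_one)
open Pool.Agent.N917.KR (gw es)

/-- the induction step -/
theorem step' (hW4 : S_W4) {L q0 q2 : ℕ} {cf : ℕ → ℝ} {cL : ℝ} (hL : 1 ≤ L)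
    (hcf : ∀ l, 0 < cf l ∧ cf l ≤ 1 / 2)
    (hpar : ∀ q, q2 ≤ q → ∀ m l, 2 ≤ m → m + l = L → ∃ B, Par q B m l (cf l))
    (hcl : ∀ l < L, CA l q0 ∧ CA1 l q0 (cf l) ∧ (1 ≤ l → CG l q0 (cf l)))
    (hcL1 : ∀ l, l + 1 = L → cL ≤ cf l) (hcL2 : ∀ l, l + 2 ≤ L → cL ≤ cf l / 16) :
    CA L (max q0 q2) ∧ CA1 L (max q0 q2) cL ∧ CG L (max q0 q2) cL := by
  have hW0 := t_W0
  have hW1 := t_W1
  have hUNQ := t_UNQ hW0
  have hTSS := t_TSS
  have hTRS := t_TRS
  have hW2 := t_W2 hW0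
  have hW3 := t_W3 hW0
  have hW5 := t_W5 hW0
  have hALL := t_ALL hW0 hUNQ
  have hGP := t_GP hTSS
  have hGP0 := t_GP0 hTSS
  have hTL := t_TL hTRS hW1
  have hRI := t_RI hTRS (t_CRD t_NB)
  have hDC := t_DC
  have hOUT := t_OUT hUNQ
  have hXP := t_XP hW0 hW4 hUNQ
  refine ⟨?_, ?_, ?_⟩
  · -- CA
    intro V _ G _ W τ H h0
    have h0' := h0 hL
    obtain ⟨m, hm1, hmL, hpr, hbk⟩ := t_BKOF V G W L τ 0 H hL
    obtain ⟨l, rfl⟩ := Nat.exists_eq_add_of_le hmL
    rw [Nat.add_sub_cancel_left] at hpr hbk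
    rcases Nat.lt_or_ge m 2 with hm | hm
    · obtain rfl : m = 1 := by omega
      obtain ⟨cA, cA1, _⟩ := hcl l (by omega)
      obtain ⟨hc, hc1⟩ := hcf l
      rw [show (fun i => τ (1 + i)) = fun i => τ (i + 1) from funext fun i => by rw [add_comm],
        Nat.sub_self, pow_zero, one_mul, add_comm 1 l] at hpr
      rw [add_comm 1 l] at H ⊢
      exact (step_one hc cA cA1 H ((le_max_left _ _).trans h0') hpr).1
    · obtain ⟨X, _, hX⟩ := hbk hm ∅ (by simp) (by simp)
      obtain ⟨B, P⟩ := hpar (τ 0) ((le_max_right _ _).trans h0') m l hm rfl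
      obtain ⟨cA, cA1, cG⟩ := hcl l (by omega)
      obtain ⟨hc, hc1⟩ := hcf l
      rcases Nat.eq_zero_or_pos l with hl | hl
      · subst hl
        have hW := hX.tot
        simp only [range_zero, sum_empty, add_zero] at hW
        rw [hpr]
        have h1 : pr 0 (fun i => τ (m + i)) = 1 := by simp [pr]
        rw [h1, mul_one]
        exact KR.pure G KR.t_SUM KR.t_LAST KR.t_CRUDE KR.t_ID KR.t_MOVE KR.t_BUD KR.t_YF KR.t_CNT
          (KR.t_P1 KR.t_CRUDE KR.t_ID) (KR.t_NUMP KR.t_RL) hm P.h1 hX.hXW hX.hX hX.hc hW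
      · obtain ⟨T, _, _, c1, c2⟩ := core hW0 hW2 hW3 hW5 hUNQ hALL hTSS hGP hGP0 hTL hRI hDC hOUT
          hX P (Or.inl hl) cA cA1 cG ((le_max_left _ _).trans h0') hc (by linarith)
        have := blk_CA (G := G) (W := W) (X := X) (q := τ 0) (m := m) (l := l) (c := cf l)
          (p := (pr l (fun i => τ (m + i)) : ℝ)) (Nat.cast_nonneg _) hc
          ⟨T, _, c1, c2⟩
        rw [hpr]
        exact_mod_cast this
  · -- CA1
    intro V _ G _ W τ H h0
    have h0' := h0 hL
    obtain ⟨m, hm1, hmL, hpr, hbk⟩ := t_BKOF V G W L τ 1 H hL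
    obtain ⟨l, rfl⟩ := Nat.exists_eq_add_of_le hmL
    rw [Nat.add_sub_cancel_left] at hpr hbk
    have hprn : (0 : ℝ) ≤ (pr (m + l) τ : ℝ) := Nat.cast_nonneg _
    rcases Nat.lt_or_ge m 2 with hm | hm
    · obtain rfl : m = 1 := by omega
      obtain ⟨cA, cA1, _⟩ := hcl l (by omega)
      obtain ⟨hc, hc1⟩ := hcf l
      rw [show (fun i => τ (1 + i)) = fun i => τ (i + 1) from funext fun i => by rw [add_comm],
        Nat.sub_self, pow_zero, one_mul, add_comm 1 l] at hpr
      rw [add_comm 1 l] at H hprn ⊢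
      refine le_trans ?_ ((step_one hc cA cA1 H ((le_max_left _ _).trans h0') hpr).2
        (Or.inl le_rfl))
      exact mul_le_mul_of_nonneg_right (by linarith [hcL1 l (by omega)]) hprn
    · obtain ⟨X, _, hX⟩ := hbk hm ∅ (by simp) (by simp)
      obtain ⟨B, P⟩ := hpar (τ 0) ((le_max_right _ _).trans h0') m l hm rfl
      obtain ⟨cA, cA1, cG⟩ := hcl l (by omega)
      obtain ⟨hc, hc1⟩ := hcf l
      obtain ⟨T, t1, _, c1, c2⟩ := core hW0 hW2 hW3 hW5 hUNQ hALL hTSS hGP hGP0 hTL hRI hDC hOUT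
          hX P (Or.inr le_rfl) cA cA1 cG ((le_max_left _ _).trans h0') hc (by linarith)
      rw [t1 le_rfl, sum_empty, sub_zero] at c2
      have h3 : (((cl G W (m + l + 1)).filter
          (fun K => K ∩ X ∉ (∅ : Finset (Finset V)))).card : ℝ) ≤
          ((cl G W (m + l + 1)).card : ℝ) := by
        exact_mod_cast Finset.card_le_card (filter_subset _ _)
      have h4 : (pr (m + l) τ : ℝ) = (τ 0 : ℝ) ^ (m - 1) * (pr l (fun i => τ (m + i)) : ℝ) := by
        rw [hpr]; push_cast; rfl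
      rw [← h4] at c2
      have h5 : (1 + cL) * (pr (m + l) τ : ℝ) ≤ (1 + cf l / 4) * (pr (m + l) τ : ℝ) :=
        mul_le_mul_of_nonneg_right (by linarith [hcL2 l (by omega)]) hprn
      linarith
  · -- CG
    intro V _ G _ W τ x H h0' hxW hxl
    obtain ⟨m, hm1, hmL, hpr, hbk⟩ := t_BKOF V G W L τ 0 H hL
    obtain ⟨l, rfl⟩ := Nat.exists_eq_add_of_le hmL
    rw [Nat.add_sub_cancel_left] at hpr hbk
    have hprn : (0 : ℝ) ≤ (pr (m + l) τ : ℝ) := Nat.cast_nonneg _
    rcases Nat.lt_or_ge m 2 with hm | hm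
    · obtain rfl : m = 1 := by omega
      obtain ⟨cA, cA1, _⟩ := hcl l (by omega)
      obtain ⟨hc, hc1⟩ := hcf l
      rw [show (fun i => τ (1 + i)) = fun i => τ (i + 1) from funext fun i => by rw [add_comm],
        Nat.sub_self, pow_zero, one_mul, add_comm 1 l] at hpr
      rw [add_comm 1 l] at H hprn ⊢
      left
      refine le_trans ?_ ((step_one hc cA cA1 H ((le_max_left _ _).trans h0') hpr).2
        (Or.inr ⟨x, hxW, hxl⟩))
      exact mul_le_mul_of_nonneg_right (by linarith [hcL1 l (by omega)]) hprn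
    · obtain ⟨X, hxX, hX⟩ := hbk hm {x} (by simp) (by
        intro y hy
        rw [mem_singleton] at hy
        subst hy
        exact ⟨hxW, hxl.le⟩)
      have hxX' : x ∈ X := hxX (mem_singleton_self _)
      obtain ⟨B, P⟩ := hpar (τ 0) ((le_max_right _ _).trans h0') m l hm rfl
      obtain ⟨cA, cA1, cG⟩ := hcl l (by omega)
      obtain ⟨hc, hc1⟩ := hcf l
      have h4 : (pr (m + l) τ : ℝ) = (τ 0 : ℝ) ^ (m - 1) * (pr l (fun i => τ (m + i)) : ℝ) := by
        rw [hpr]; push_cast; rfl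
      rcases Nat.eq_zero_or_pos l with hl | hl
      · subst hl
        have h5 : (pr 0 (fun i => τ (m + i)) : ℝ) = 1 := by simp [pr]
        rw [h5, mul_one] at h4
        rw [h4] at hprn ⊢
        rcases pureCG hW0 hW2 hW3 hW5 hUNQ hALL hTSS hGP0 hTL hRI hDC hOUT hXP hX
          (P.weaken (by linarith)) hxX' hxl with h6 | h6
        · left
          refine le_trans ?_ h6
          exact mul_le_mul_of_nonneg_right (by linarith [hcL2 0 (by omega)]) hprn
        · right
          refine le_trans h6 ?_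
          exact mul_le_mul_of_nonneg_right (by linarith [hcL2 0 (by omega)]) hprn
      · obtain ⟨T, _, t2, c1, c2⟩ := core hW0 hW2 hW3 hW5 hUNQ hALL hTSS hGP hGP0 hTL hRI hDC
          hOUT hX P (Or.inl hl) cA cA1 cG ((le_max_left _ _).trans h0') hc (by linarith)
        rw [h4] at hprn ⊢
        have hz := hcL2 l (by omega)
        rcases blk_CG (G := G) (W := W) (X := X) (q := τ 0) (m := m) (l := l) (c := cf l)
          (p := (pr l (fun i => τ (m + i)) : ℝ)) (Nat.cast_nonneg _) hc (by linarith) hxX' hxl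
          ⟨T, _, t2, c1, c2⟩ with h6 | h6
        · left
          refine le_trans ?_ h6
          exact mul_le_mul_of_nonneg_right (by linarith) hprn
        · right
          refine le_trans h6 ?_
          exact mul_le_mul_of_nonneg_right (by linarith) hprn


/-- the constants -/
noncomputable def cc (l : ℕ) : ℝ := 1 / (2 * 16 ^ (l / 2))

theorem cc_pos (l : ℕ) : 0 < cc l ∧ cc l ≤ 1 / 2 := by
  unfold cc
  refine ⟨by positivity, ?_⟩
  rw [div_le_div_iff₀ (by positivity) (by norm_num)]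
  have : (1 : ℝ) ≤ 16 ^ (l / 2) := one_le_pow₀ (by norm_num)
  linarith

theorem cc_anti {l L : ℕ} (h : l ≤ L) : cc L ≤ cc l := by
  unfold cc
  apply one_div_le_one_div_of_le (by positivity)
  have : (16 : ℝ) ^ (l / 2) ≤ 16 ^ (L / 2) := pow_le_pow_right₀ (by norm_num) (by omega)
  linarith

theorem cc_step {l L : ℕ} (h : l + 2 ≤ L) : cc L ≤ cc l / 16 := by
  have h1 : cc l / 16 = cc (l + 2) := by
    unfold cc
    rw [show (l + 2) / 2 = l / 2 + 1 by omega, pow_succ]
    field_simp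
  rw [h1]
  exact cc_anti h

/-- the explicit threshold -/
def Q1 (L : ℕ) : ℕ := 2000000 * 32 ^ L + 344 * (L - 1).factorial

theorem Q1_mono (L : ℕ) : Q1 L ≤ Q1 (L + 1) := by
  unfold Q1
  apply Nat.add_le_add
  · exact Nat.mul_le_mul le_rfl (Nat.pow_le_pow_right (by norm_num) (by omega))
  · exact Nat.mul_le_mul le_rfl (Nat.factorial_le (by omega))

theorem fact_mul : ∀ a b : ℕ, (a + 1).factorial * (b + 1).factorial ≤ (a + b + 1).factorial := by
  intro a b
  induction a with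
  | zero => simp
  | succ a ih =>
    rw [Nat.factorial_succ (a + 1), show a + 1 + b + 1 = (a + b + 1) + 1 by ring,
      Nat.factorial_succ (a + b + 1), mul_assoc]
    exact Nat.mul_le_mul (by omega) ih

theorem poly_fact (m : ℕ) (hm : 2 ≤ m) : m + 2 * m ^ 4 ≤ 86 * (m - 1).factorial := by
  rcases Nat.lt_or_ge m 6 with h | h
  · interval_cases m <;> norm_num [Nat.factorial]
  · obtain ⟨k, rfl⟩ : ∃ k, m = k + 1 := ⟨m - 1, by omega⟩
    have hk : 5 ≤ k := by omega
    clear hm h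
    rw [Nat.add_sub_cancel]
    induction k, hk using Nat.le_induction with
    | base => norm_num [Nat.factorial]
    | succ k hk ih =>
      rw [Nat.factorial_succ]
      have h1 : (k + 1 + 1) + 2 * (k + 1 + 1) ^ 4 ≤ (k + 1) * ((k + 1) + 2 * (k + 1) ^ 4) := by
        obtain ⟨j, rfl⟩ := Nat.exists_eq_add_of_le hk
        ring_nf
        nlinarith [sq_nonneg j, pow_le_pow_left₀ (Nat.zero_le j) le_rfl 2, Nat.zero_le (j ^ 5),
          Nat.zero_le (j ^ 4), Nat.zero_le (j ^ 3), Nat.zero_le (j ^ 2)]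
      calc (k + 1 + 1) + 2 * (k + 1 + 1) ^ 4 ≤ (k + 1) * ((k + 1) + 2 * (k + 1) ^ 4) := h1
        _ ≤ (k + 1) * (86 * k.factorial) := Nat.mul_le_mul le_rfl ih
        _ = 86 * ((k + 1) * k.factorial) := by ring

theorem pow_four (m : ℕ) (hm : 1 ≤ m) : 16 * m ^ 4 ≤ 16 ^ m := by
  induction m, hm using Nat.le_induction with
  | base => norm_num
  | succ m hm ih =>
    have h1 : (m + 1) ^ 4 ≤ 16 * m ^ 4 := by
      calc (m + 1) ^ 4 ≤ (2 * m) ^ 4 := Nat.pow_le_pow_left (by omega) 4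
        _ = 16 * m ^ 4 := by ring
    rw [pow_succ 16 m]
    omega

theorem par' {L q : ℕ} (hq : Q1 L ≤ q) {m l : ℕ} (hm : 2 ≤ m) (hml : m + l = L) :
    ∃ B, Par q B m l (cc l) := by
  subst hml
  set K : ℕ := 16 ^ (l / 2) with hK
  have hK1 : 1 ≤ K := Nat.one_le_pow _ _ (by norm_num)
  have hKK : K * K ≤ 16 ^ l := by
    rw [hK, ← pow_add]
    exact Nat.pow_le_pow_right (by norm_num) (by omega)
  set T : ℕ := 2 ^ (m + l) with hT
  have hT1 : 1 ≤ T := Nat.one_le_pow _ _ (by norm_num)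
  have hX : 32000000 * (m ^ 4 * T * (K * K)) ≤ 2000000 * 32 ^ (m + l) := by
    have h1 : 16 * m ^ 4 ≤ 16 ^ m := pow_four m (by omega)
    have h2 : 32 ^ (m + l) = T * (16 ^ m * 16 ^ l) := by
      rw [hT, ← pow_add, ← mul_pow]
      norm_num
    calc 32000000 * (m ^ 4 * T * (K * K)) = 2000000 * (T * ((16 * m ^ 4) * (K * K))) := by ring
      _ ≤ 2000000 * (T * (16 ^ m * 16 ^ l)) :=
        Nat.mul_le_mul le_rfl (Nat.mul_le_mul le_rfl (Nat.mul_le_mul h1 hKK))
      _ = 2000000 * 32 ^ (m + l) := by rw [h2]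
  have hq1 : 32000000 * (m ^ 4 * T * (K * K)) ≤ q := by
    unfold Q1 at hq
    omega
  have hq2 : 344 * (m + l - 1).factorial ≤ q := by
    unfold Q1 at hq
    omega
  have hm1 : 1 ≤ m := by omega
  have hm14 : m ≤ m ^ 4 := by
    calc m = m ^ 1 := (pow_one m).symm
      _ ≤ m ^ 4 := Nat.pow_le_pow_right hm1 (by norm_num)
  have hm24 : m ^ 2 ≤ m ^ 4 := Nat.pow_le_pow_right hm1 (by norm_num)
  have hKK1 : K ≤ K * K := Nat.le_mul_of_pos_right _ hK1
  have hc : cc l = 1 / (2 * (K : ℝ)) := by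
    unfold cc
    rw [hK]
    push_cast
    rfl
  have hKr : (0 : ℝ) < 2 * (K : ℝ) := by
    have : (0 : ℝ) < K := by exact_mod_cast hK1
    linarith
  set X := m ^ 4 * T * (K * K) with hXd
  have x1 : m ^ 2 * T * K ≤ X := Nat.mul_le_mul (Nat.mul_le_mul hm24 le_rfl) hKK1
  have x2 : m * K ≤ X := by
    calc m * K = m * 1 * K := by ring
      _ ≤ X := Nat.mul_le_mul (Nat.mul_le_mul hm14 hT1) hKK1
  have x3 : m ^ 2 ≤ X := by
    calc m ^ 2 = m ^ 2 * 1 * 1 := by ring
      _ ≤ m ^ 2 * T * K := Nat.mul_le_mul (Nat.mul_le_mul le_rfl hT1) hK1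
      _ ≤ X := x1
  have x4 : m ≤ X := by
    calc m = m * 1 := by ring
      _ ≤ m * K := Nat.mul_le_mul le_rfl hK1
      _ ≤ X := x2
  refine ⟨4000 * (m ^ 2 * T * K), ?_, ?_, ?_, ?_, ?_, ?_, ?_, ?_⟩
  · omega
  · rw [hc, div_mul_eq_mul_div, one_mul, le_div_iff₀ hKr]
    have h1 : 16 * m * (2 * K) ≤ q := by
      calc 16 * m * (2 * K) = 32 * (m * K) := by ring
        _ ≤ q := by omega
    exact_mod_cast h1
  · have h1 := poly_fact m hm
    have h2 : (m - 1).factorial * (l + 1).factorial ≤ (m + l - 1).factorial := by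
      have h3 := fact_mul (m - 2) l
      rw [show m - 2 + 1 = m - 1 by omega, show m - 2 + l + 1 = m + l - 1 by omega] at h3
      exact h3
    calc 4 * (m + 2 * m ^ 4) * (l + 1).factorial
        ≤ 4 * (86 * (m - 1).factorial) * (l + 1).factorial :=
          Nat.mul_le_mul (Nat.mul_le_mul le_rfl h1) le_rfl
      _ = 344 * ((m - 1).factorial * (l + 1).factorial) := by ring
      _ ≤ 344 * (m + l - 1).factorial := Nat.mul_le_mul le_rfl h2
      _ ≤ q := hq2
  · omega
  · have h1 : 1 ≤ m ^ 2 * T * K :=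
      Nat.one_le_iff_ne_zero.2 (by positivity)
    omega
  · rw [hc, div_mul_eq_mul_div, one_mul, le_div_iff₀ hKr]
    have h1 : 1000 * m ^ 2 * 2 ^ (m + l + 1) * (2 * K) ≤ 4000 * (m ^ 2 * T * K) := by
      rw [pow_succ 2 (m + l), ← hT]
      apply le_of_eq
      ring
    exact_mod_cast h1
  · rw [hc, div_mul_eq_mul_div, one_mul, le_div_iff₀ hKr]
    have h1 : 4000 * (4000 * (m ^ 2 * T * K)) * m ^ 2 * (2 * K) ≤ q := by
      calc 4000 * (4000 * (m ^ 2 * T * K)) * m ^ 2 * (2 * K) = 32000000 * X := by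
            rw [hXd]; ring
        _ ≤ q := hq1
    exact_mod_cast h1
  · omega

/-- all claims, explicit -/
theorem all_levels' (L : ℕ) : ∀ l ≤ L, CA l (Q1 L) ∧ CA1 l (Q1 L) (cc l) ∧
    (1 ≤ l → CG l (Q1 L) (cc l)) := by
  induction L with
  | zero =>
    intro l' hl'
    obtain rfl : l' = 0 := by omega
    exact ⟨base_CA _, base_CA1 _ (by linarith [(cc_pos 0).2]), fun h => absurd h (by omega)⟩
  | succ L ih =>
    obtain ⟨a1, a2, a3⟩ := step' t_W4 (L := L + 1) (q0 := Q1 L) (q2 := Q1 (L + 1)) (cf := cc)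
      (cL := cc (L + 1)) (by omega) cc_pos
      (fun q hq m l hm hml => par' hq hm hml)
      (fun l hl => ih l (by omega))
      (fun l hl => cc_anti (by omega)) (fun l hl => cc_step hl)
    rw [max_eq_right (Q1_mono L)] at a1 a2 a3
    intro l' hl'
    rcases Nat.lt_or_ge l' (L + 1) with h2 | h2
    · obtain ⟨b1, b2, b3⟩ := ih l' (by omega)
      exact ⟨b1.weaken (Q1_mono L), b2.weaken (Q1_mono L) le_rfl,
        fun h => (b3 h).weaken (Q1_mono L) le_rfl⟩
    · obtain rfl : l' = L + 1 := by omega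
      exact ⟨a1, a2, fun _ => a3⟩

theorem ca' (r : ℕ) : CA r (Q1 r) := (all_levels' r r le_rfl).1

end Pool.Agent.KS6_48.THR
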